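import Pool.Agent.Run7.h716.ZW.Defs

/-! Interface of the algebraic half of project ZW (helper716). -/

set_option autoImplicit false

namespace Run7.h716.ZW

open Filter

/-- **GERM** (60 lines). Words in germs of sequences in a lattice-ordered group.  Proof: `FreeGroup.lift X w` with
`X l = ↑(x l)` is `↑(fun n => FreeGroup.lift (fun l => x l n) w)` (FreeGroup.induction_on, or compose the
homomorphism `(ℕ → G) →* Germ atTop G` with `FreeGroup.lift x`); `↑` commutes with `⊔`, `⊓`, so with `sup'`, `inf'`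
(`Finset.comp_sup'_eq_sup'_comp`); `Germ.coe_eq`. -/
def S_GERM : Prop := ∀ (G : Type) [Group G] [Lattice G] (k m : ℕ)
  (w : Fin (m + 1) → Fin (m + 1) → FreeGroup (Fin k)) (x : Fin k → ℕ → G),
  (Finset.univ.sup' Finset.univ_nonempty (fun i => Finset.univ.inf' Finset.univ_nonempty (fun j =>
      FreeGroup.lift (fun l => (↑(x l) : Germ (atTop : Filter ℕ) G)) (w i j))) = 1) ↔
    ∀ᶠ n in atTop, Finset.univ.sup' Finset.univ_nonempty (fun i =>
      Finset.univ.inf' Finset.univ_nonempty (fun j => FreeGroup.lift (fun l => x l n) (w i j))) = 1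

/-- **GMONO** (20 lines). `Germ atTop G` is a lattice-ordered group if `G` is one (`Germ.inductionOn`). -/
def S_GMONO : Prop := ∀ (G : Type) [Group G] [Lattice G] [MulLeftMono G] [MulRightMono G],
  MulLeftMono (Germ (atTop : Filter ℕ) G) ∧ MulRightMono (Germ (atTop : Filter ℕ) G)

/-- sequences of finitely supported functions whose linear forms have widely separated sign changes. -/
def Key (F : ℕ → (ℤ →₀ ℤ)) : Prop := (∀ j, F j ≠ 0) ∧ ∀ (c : ℤ →₀ ℤ) (R : ℕ), ∀ᶠ j in atTop,
  ∀ k k' : ℤ, 0 < lf c (F j) k → lf c (F j) k' < 0 → (R : ℤ) < |k - k'|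

/-- **KEY** (from S_SEQ; 30 lines). Proof: `e : ℕ → (ℤ →₀ ℤ)` surjective (`exists_surjective_nat`; `ℤ →₀ ℤ` is
countable); `F j` from `S_SEQ` with `C = (Finset.range j).image e` and `R = j`. -/
def S_KEY : Prop := ∃ F, Key F

/-- `b` is locally linear in `F`: there is a finite set of forms such that for each `R` eventually on each
interval of length `R` the function `b j` is one of the forms of `F j`. -/
def LL (F : ℕ → (ℤ →₀ ℤ)) (b : ℕ → ℤ → ℤ) : Prop := ∃ A : Finset (ℤ →₀ ℤ), ∀ R : ℕ,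
  ∀ᶠ j in atTop, ∀ k0 : ℤ, ∃ c ∈ A, ∀ k, k0 ≤ k → k ≤ k0 + R → b j k = lf c (F j) k

/-- **LLA** (60 lines). `lf` is additive in `c`; the shift of a form is a form. -/
def S_LLA : Prop := ∀ F : ℕ → (ℤ →₀ ℤ), Key F →
  LL F (fun _ _ => 0) ∧ LL F (fun j k => F j k) ∧
  (∀ b b', LL F b → LL F b' → LL F (fun j k => b j k + b' j k)) ∧
  (∀ b, LL F b → LL F (fun j k => - b j k)) ∧
  (∀ b (m : ℤ), LL F b → LL F (fun j k => b j (k + m)))

/-- **LLB** (60 lines). Proof: forms `A ∪ A'`.  For given `R` take `j` so large that all the `(c - c') F j`, `c ∈ A`,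
`c' ∈ A'` have sign changes separated by more than `R`; on an interval of length `R` with `b = c F j`, `b' = c' F j`
either `c F j ≥ c' F j` on the whole interval or `≤`. -/
def S_LLB : Prop := ∀ F : ℕ → (ℤ →₀ ℤ), Key F →
  ∀ b b', LL F b → LL F b' → LL F (fun j k => max (b j k) (b' j k))

/-- **LLC** (30 lines). Proof: `k, k'` with `|k - k'| ≤ R` lie in an interval of length `R`, there `b j = c F j`
with `c ∈ A`; use `Key` for the finitely many `c ∈ A`. -/
def S_LLC : Prop := ∀ F : ℕ → (ℤ →₀ ℤ), Key F → ∀ b, LL F b →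
  ∀ R : ℕ, ∀ᶠ j in atTop, ∀ k k' : ℤ, 0 < b j k → b j k' < 0 → (R : ℤ) < |k - k'|

end Run7.h716.ZW
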