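import Mathlib

/-!
Project ZW (helper716): S02384, the quasi-variety of `Z wr Z` does not cover the abelian
lattice-ordered groups.  Combinatorial core: nonzero finitely supported `F : ℤ → ℤ` such that for
finitely many given linear forms `c` the sign changes of `c(T) F` are separated by long gaps.
All pieces are closed Props with complete proofs in the doc strings.
-/

set_option autoImplicit false

namespace Run7.h716.ZW

open Polynomial

noncomputable section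

/-- the shift `(sh F) k = F (k + 1)`. -/
def sh : Module.End ℝ (ℤ → ℝ) where
  toFun F := fun k => F (k + 1)
  map_add' _ _ := rfl
  map_smul' _ _ := rfl

/-- `A(T) F`, `T` the shift. -/
def ap (A : ℝ[X]) (F : ℤ → ℝ) : ℤ → ℝ := aeval sh A F

lemma sh_pow (i : ℕ) (F : ℤ → ℝ) (k : ℤ) : (sh ^ i) F k = F (k + i) := by
  induction i generalizing k with
  | zero => simp
  | succ i ih =>
    rw [pow_succ', Module.End.mul_apply]
    show (sh ^ i) F (k + 1) = _
    rw [ih]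
    congr 1
    push_cast
    ring

/-- the explicit formula. -/
lemma ap_apply (A : ℝ[X]) (F : ℤ → ℝ) (k : ℤ) :
    ap A F k = ∑ j ∈ Finset.range (A.natDegree + 1), A.coeff j * F (k + j) := by
  unfold ap
  rw [aeval_eq_sum_range]
  simp only [LinearMap.sum_apply, LinearMap.smul_apply, Finset.sum_apply, Pi.smul_apply, smul_eq_mul,
    sh_pow]

lemma ap_mul (A B : ℝ[X]) (F : ℤ → ℝ) : ap (A * B) F = ap A (ap B F) := by
  unfold ap
  rw [map_mul, Module.End.mul_apply]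

lemma ap_linear (r : ℝ) (F : ℤ → ℝ) (k : ℤ) : ap (X - C r) F k = F (k + 1) - r * F k := by
  unfold ap
  rw [map_sub, aeval_X, aeval_C, LinearMap.sub_apply, Pi.sub_apply, Module.algebraMap_end_apply]
  rfl

/-- the sign changes of `f` are separated by gaps longer than `R`. -/
def Sep (R : ℕ) (f : ℤ → ℝ) : Prop := ∀ k k' : ℤ, 0 < f k → f k' < 0 → (R : ℤ) < |k - k'|

/-- behaviour on the left: `none` means zero, `some a` means a constant times `a ^ k`. -/
def Lft (a : Option ℝ) (F : ℤ → ℝ) : Prop :=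
  match a with
  | none => ∃ K : ℤ, ∀ k < K, F k = 0
  | some a => ∃ K : ℤ, ∃ c : ℝ, 0 < c ∧ ∀ k < K, F k = c * a ^ k

/-- behaviour on the right. -/
def Rgt (b : Option ℝ) (F : ℤ → ℝ) : Prop :=
  match b with
  | none => ∃ K : ℤ, ∀ k > K, F k = 0
  | some b => ∃ K : ℤ, ∃ c : ℝ, 0 < c ∧ ∀ k > K, F k = c * b ^ k

/-- `F` is a transition from the ratio `a` (on the left) to the ratio `b` (on the right); here
`none` stands for `∞` on the left and for `0` on the right. -/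
structure Good (L : Finset ℝ[X]) (R : ℕ) (a b : Option ℝ) (F : ℤ → ℝ) : Prop where
  nonneg : ∀ k, 0 ≤ F k
  pos : ∃ k, 0 < F k
  lft : Lft a F
  rgt : Rgt b F
  up : ∀ x : ℝ, a = some x → ∀ k, F (k + 1) ≤ x * F k
  low : ∀ x : ℝ, b = some x → ∀ k, x * F k ≤ F (k + 1)
  sep : ∀ A ∈ L, Sep R (ap A F)

/-- **SGN** (60 lines). If the ratios of `F ≥ 0` are near `r` and `A(r) ≠ 0` then `A(T)F` has the
sign of `A(r)` or is zero.  Proof: by induction on `j`, `(r-δ)^j F k ≤ F (k+j) ≤ (r+δ)^j F k`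
(`0 < δ < r`).  So by `ap_apply` `|ap A F k - A(r) F k| ≤ ∑ |c_j| ((r+δ)^j - (r-δ)^j) F k`, and the
sum is `≤ |A(r)|` for small `δ` by continuity at `δ = 0` (`eval_eq_sum_range`). -/
def S_SGN : Prop := ∀ (A : ℝ[X]) (r : ℝ), 0 < r → A.eval r ≠ 0 → ∃ δ : ℝ, 0 < δ ∧ δ < r ∧
  ∀ F : ℤ → ℝ, (∀ k, 0 ≤ F k) → (∀ k, (r - δ) * F k ≤ F (k + 1)) →
    (∀ k, F (k + 1) ≤ (r + δ) * F k) → ∀ k, 0 ≤ A.eval r * ap A F k

/-- **BIG** (40 lines). Ratios large: the sign is that of the leading coefficient.  Proof: with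
`d = natDegree A`, `a0 ≥ 1` and `a0 ≥ ∑ |c_j| / |c_d|`: `F (k+j) ≤ F (k+d) / a0` for `j < d`, so
`|∑_{j<d} c_j F (k+j)| ≤ |c_d| F (k+d)`. -/
def S_BIG : Prop := ∀ A : ℝ[X], A ≠ 0 → ∃ a0 : ℝ, 0 < a0 ∧
  ∀ F : ℤ → ℝ, (∀ k, 0 ≤ F k) → (∀ k, a0 * F k ≤ F (k + 1)) → ∀ k, 0 ≤ A.leadingCoeff * ap A F k

/-- **SMALL** (40 lines). Ratios small: the sign is that of the constant coefficient.  Proof:
`0 < b0 ≤ 1` and `b0 * ∑ |c_j| ≤ |c_0|`: `F (k+j) ≤ b0 F k` for `j ≥ 1`. -/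
def S_SMALL : Prop := ∀ A : ℝ[X], A.coeff 0 ≠ 0 → ∃ b0 : ℝ, 0 < b0 ∧
  ∀ F : ℤ → ℝ, (∀ k, 0 ≤ F k) → (∀ k, F (k + 1) ≤ b0 * F k) → ∀ k, 0 ≤ A.coeff 0 * ap A F k

/-- **ENDS** (from BIG, SMALL; 80 lines). Start and end.  Proof.  Start: `F k = 0` for `k < 0`,
`F k = a ^ k` for `k ≥ 0`, `a` at least all the `a0` of BIG for the `A ∈ L` (and `> 0`): then
`a F k ≤ F (k+1)` for all `k`, so `A(T)F` does not change the sign and `Sep` holds.  End: `F k = b ^ k` for
`k ≤ 0`, `F k = 0` for `k > 0`, `b` at most all the `b0` of SMALL. -/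
def S_ENDS : Prop := ∀ (L : Finset ℝ[X]) (R : ℕ), (∀ A ∈ L, A.coeff 0 ≠ 0) →
  (∃ a0 : ℝ, 0 < a0 ∧ ∀ a, a0 ≤ a → ∃ F, Good L R none (some a) F) ∧
  (∃ b0 : ℝ, 0 < b0 ∧ ∀ b, 0 < b → b ≤ b0 → ∃ F, Good L R (some b) none F)

/-- **CAT** (120 lines). Concatenation at the ratio `c`.  Proof.  Let `M` bound the degrees of the
`A ∈ L`, `F k = c₁ c^k` for `k > K₁` and `G k = c₂ c^k` for `k < K₂`.  Shift `G` to the right and scale it:
`G' k = s G (k - d)` with `s > 0` such that `G' k = c₁ c^k` for `k < K₂ + d` (`s = c₁ c^d / c₂`); choose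
`d` so large that `K' := K₂ + d - 1 ≥ K₁ + 1 + R + M + 2`, `K := K₁ + 1`.  Put `H k = F k` for `k ≤ K'`, `H k = G' k`
for `k > K'`; so `H = F` on `(-∞,K']` and `H = G'` on `[K,∞)`.  By `ap_apply` `ap A H k = ap A F k` if
`k + M ≤ K'` and `ap A H k = ap A G' k = s * ap A G (k - d)` if `k ≥ K`.  If `0 < ap A H k`, `ap A H k' < 0`: both `k, k'`
in the first range: `F.sep`; both in the second: `G.sep`; otherwise one is `< K` and the other
`> K' - M`, so the distance is `> R`.  The ratio conditions hold for `F` and `G'` with the common ratio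
`c` in the middle (if `b = some x` the condition `x F k ≤ F (k+1)` for the part `F` needs `x ≤ c`: it follows from
`Good.low` of `G` at a place of the run `G k = c₂ c^k`, which is also bounded by `Good.up`; similarly `c ≤ x`
for `a = some x`). -/
def S_CAT : Prop := ∀ (L : Finset ℝ[X]) (R : ℕ) (a b : Option ℝ) (c : ℝ), 0 < c →
  (∃ F, Good L R a (some c) F) → (∃ G, Good L R (some c) b G) → ∃ H, Good L R a b H

/-- **HALF1** (100 lines). Proof: `F k = ∑' n : ℕ, r ^ n * g (k - 1 - n)`, summable because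
`g (k-1-n) = c a^(k-1-n)` for large `n` and `r < a`.  Then `F (k+1) = g k + r F k`; for `k < K`
`F k = c a^k / (a - r)`; for `k > K' + 1` (where `g = 0`) `F (k+1) = r F k`, so `F k = c' r^k` (and `c' > 0` as
`F > 0` everywhere: `g > 0` far to the left); `g (k-1-n) ≥ g k / a^(n+1)` gives `F k ≥ g k / (a - r)`, that is
`F (k+1) ≤ a F k`. -/
def S_HALF1 : Prop := ∀ (g : ℤ → ℝ) (a r : ℝ), 0 < r → r < a → (∀ k, 0 ≤ g k) → Lft (some a) g →
  Rgt none g → (∀ k, g (k + 1) ≤ a * g k) →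
  ∃ F : ℤ → ℝ, (∀ k, 0 ≤ F k) ∧ (∃ k, 0 < F k) ∧ Lft (some a) F ∧ Rgt (some r) F ∧
    (∀ k, F (k + 1) ≤ a * F k) ∧ (∀ k, r * F k ≤ F (k + 1)) ∧ ∀ k, F (k + 1) - r * F k = g k

/-- **HALF2** (100 lines). Proof: `F k = ∑' n : ℕ, g (k + n) / r ^ (n + 1)`, summable because
`g (k+n) = c b^(k+n)` for large `n` and `b < r`.  Then `F (k+1) = r F k - g k`; for `k > K'`
`F k = c b^k / (r - b)`; for `k < K` (where `g = 0`) `F (k+1) = r F k`, so `F k = c' r^k` on the left, `c' > 0`;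
`g (k+n) ≥ b^n g k` gives `F k ≥ g k / (r - b)`, that is `b F k ≤ F (k+1)`. -/
def S_HALF2 : Prop := ∀ (g : ℤ → ℝ) (b r : ℝ), 0 < b → b < r → (∀ k, 0 ≤ g k) → Lft none g →
  Rgt (some b) g → (∀ k, b * g k ≤ g (k + 1)) →
  ∃ F : ℤ → ℝ, (∀ k, 0 ≤ F k) ∧ (∃ k, 0 < F k) ∧ Lft (some r) F ∧ Rgt (some b) F ∧
    (∀ k, F (k + 1) ≤ r * F k) ∧ (∀ k, b * F k ≤ F (k + 1)) ∧ ∀ k, F (k + 1) - r * F k = -g k

/-- all transitions exist for polynomials of degree less than `M`. -/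
def All (M : ℕ) : Prop := ∀ (L : Finset ℝ[X]) (R : ℕ), (∀ A ∈ L, A.coeff 0 ≠ 0 ∧ A.natDegree < M) →
  ∀ a b : Option ℝ, (∀ x, a = some x → 0 < x) → (∀ x, b = some x → 0 < x) →
    (∀ x y, a = some x → b = some y → y ≤ x) → ∃ F, Good L R a b F

/-- the local condition at the ratio `c`. -/
def Loc (L : Finset ℝ[X]) (R : ℕ) (c : ℝ) : Prop := ∃ δ : ℝ, 0 < δ ∧
  (∀ a, c < a → a < c + δ → ∃ F, Good L R (some a) (some c) F) ∧
  ∀ b, 0 < b → c - δ < b → b < c → ∃ F, Good L R (some c) (some b) F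

/-- **LOC** (from SGN, HALF1, HALF2; 130 lines). Proof.  For the `A ∈ L` with `A(c) ≠ 0` let `δ` be the
minimum of the numbers of SGN; for all `F ≥ 0` with ratios in `[c-δ,c+δ]` such an `A(T)F` does not change
the sign, so it is `Sep`.  (1) No `A ∈ L` has the root `c`: `F k = a^k` for `k ≤ 0`, `c^k` for `k ≥ 0`, resp. `c^k` for `k ≤ 0`,
`b^k` for `k ≥ 0`.  (2) Otherwise `M ≥ 2`; let `L'` be the set of the `A /ₘ (X - C c)`, `A ∈ L`, `A(c) = 0`
(`mul_divByMonic_eq_iff_isRoot`; degree one less, constant coefficient `- A(0) / c ≠ 0`).  `All (M-1)` gives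
`g` with `Good L' R (some a) none g`; HALF1 with `r = c` gives `F` with `(T - c) F = g`, so for `A = (X - c) A₁`
`ap A F = ap A₁ g` (`ap_mul`, `ap_linear`, commutativity) is `Sep R`.  Similarly `Good L' R none (some b) g` and HALF2
(`Sep` is symmetric under `f ↦ -f`). -/
def S_LOC : Prop := ∀ (M : ℕ), (∀ M', M = M' + 1 → All M') →
  ∀ (L : Finset ℝ[X]) (R : ℕ), (∀ A ∈ L, A.coeff 0 ≠ 0 ∧ A.natDegree < M) → ∀ c, 0 < c → Loc L R c

/-- **PATH** (from CAT; 60 lines). Proof.  `S = {x ∈ [b,a] : ∃ F, Good L R (some x) (some b) F}` contains `b`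
(`F k = b^k`; `ap A F k = A(b) b^k` has a constant sign).  Let `x = sSup S`.  By `Loc` at `x` there is `y ∈ S`, `y > x - δ`,
`y ≤ x`, so `x ∈ S` by CAT; if `x < a` then `Loc` at `x` and CAT give elements of `S` above `x`, contradiction. -/
def S_PATH : Prop := ∀ (L : Finset ℝ[X]) (R : ℕ), (∀ c, 0 < c → Loc L R c) →
  ∀ a b, 0 < b → b ≤ a → ∃ F, Good L R (some a) (some b) F

/-- **ASM1** (from ENDS, CAT, LOC, PATH; 60 lines): induction on `M`; `none → some b`: start at a large ratio,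
then PATH, then CAT. -/
def S_ASM1 : Prop := ∀ M, All M

/-- linear form with integer coefficients: `∑ c_j F (k+j)`. -/
def lf (c : ℤ →₀ ℤ) (F : ℤ →₀ ℤ) (k : ℤ) : ℤ := c.sum fun j a => a * F (k + j)

/-- the same for real functions. -/
def lfR (c : ℤ →₀ ℤ) (F : ℤ → ℝ) (k : ℤ) : ℝ := c.sum fun j a => (a : ℝ) * F (k + j)

/-- **RAT** (90 lines). From real to integer functions.  Proof: let `V` be the `ℚ`-span of the values
of `F` in `ℝ`, a finite dimensional `ℚ`-space with basis `e_1..e_d` (`F ≠ 0`, so `d ≥ 1`).  Write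
`F k = ∑ q_{kj} e_j`.  All numbers `lfR c F k` (only finitely many are nonzero, `c ∈ C`) and the values of `F` are
`∑ x_j e_j` with rational `x_j` computed from the `q`'s by the same linear form; so a number is zero
iff its `x` is zero.  Choose rational `e'_j` so near to `e_j` that the finitely many nonzero numbers among
the `lfR c F k` and one nonzero value `F k₀` keep their sign; put `F' k = N ∑ q_{kj} e'_j` with a common
denominator `N > 0`. -/
def S_RAT : Prop := ∀ (C : Finset (ℤ →₀ ℤ)) (F : ℤ →₀ ℝ), F ≠ 0 → ∃ F' : ℤ →₀ ℤ, F' ≠ 0 ∧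
  ∀ c ∈ C, ∀ k, (0 < lf c F' k → 0 < lfR c F k) ∧ (lf c F' k < 0 → lfR c F k < 0)

/-- **POLY** (50 lines). A Laurent polynomial is a shift of a polynomial with nonzero constant
coefficient: `i` = the least element of the support of `c`, `A = ∑ c_{i+j} X^j`. -/
def S_POLY : Prop := ∀ c : ℤ →₀ ℤ, c ≠ 0 → ∃ (A : ℝ[X]) (i : ℤ), A.coeff 0 ≠ 0 ∧
  ∀ (F : ℤ → ℝ) (k : ℤ), lfR c F k = ap A F (k + i)

/-- the combinatorial theorem (**ASM2**, from ASM1, RAT, POLY; 50 lines). -/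
def S_SEQ : Prop := ∀ (C : Finset (ℤ →₀ ℤ)) (R : ℕ), ∃ F : ℤ →₀ ℤ, F ≠ 0 ∧
  ∀ c ∈ C, ∀ k k' : ℤ, 0 < lf c F k → lf c F k' < 0 → (R : ℤ) < |k - k'|

end

end Run7.h716.ZW
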